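import Pool.Agent.N676.OR.Cnt
import Pool.Agent.N676.OR.Diag
import Pool.Agent.N676.OR.Sec
import Pool.Agent.Results.MP_8312c9_nt.SectionsOfTwistedCoverings

/-!
# The birational section conjecture for twists of cyclic coverings along random orbits of thin groups

Let `D : b y ^ n = ∏ k, g k (z)` be a curve over `ℚ`, where the `g k` are polynomials with integral
coefficients, of degrees divisible by `n`, pairwise coprime, and let `h` be a polynomial with integral
coefficients, coprime to the `g k` (`Admissible`). For an integer `a` and `m ≥ 2`, `m ∣ deg h`, consider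
the cyclic covering `C a : b y ^ n = ∏ k, g k (z)`, `a x ^ m = h (z)` of `D`; for different `a` these
are twists of each other. The starting result `SectionsOfTwistedCoverings` (whose definitions are used)
treats 100% of the squarefree integers `|a| ≤ X`, for one family `(n, b, g, h)`.

Here `a = λ(c)` is the value of a linear form `λ ≠ 0` with integral coefficients at the vectors `c` of
a random orbit: `W` is a finite family `s_0, …, s_m` of matrices in `SL_r(ℤ)`, `r ≥ 2`, which generates
`SL_r(ℤ/q)` for all `q` prime to some `q₀` (by strong approximation this is so for every finite set of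
matrices which generates a Zariski dense subgroup, for example a thin subgroup, of infinite index),
`w 0, w 1, …` are independent uniformly distributed indices, and `c_t = s_(w (t-1)) ⋯ s_(w 0) v`.

**Theorem.** (1) For every family `(n, b, g, h)` and every `λ ≠ 0` the set of the vectors `c` for which
`a = λ(c)` does not have the property `Good` below is pronull: its closure in the product of the
`ℤ_p^r`, `p` not dividing `M`, has Haar measure zero, for all `M`.

(2) For almost every word `w` there is ONE set `E` of times of density zero such that for ALL vectors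
`v ≠ 0`, ALL linear forms `λ ≠ 0` and ALL families `(n, b, g, h)`, the integer `a = λ(c_t)` has the
property `Good` for all but finitely many `t` outside `E`; and for all but finitely many `t` outside
`E` there are no sections at all for the curves
`y² = (z² + 51) (z² - 1)`, `a x ^ m = (z² + 1) (z² - 17) (z² + 17)`, `m = 2, 3, 6`, which have points
over `ℝ` and over all `ℚ_p`.

Here `Good` means: for all `m ≥ 2` dividing `deg h`, every section of `Gal(Ω/F) → G_ℚ`, `F` the function
field of `C a`, of a covering of it or of a variety with a dominant map to it, which is geometric over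
the completions at the finite places, has a persistent class; and if `n = 2`, every persistent class is
the class of an integral zero of `h`, and for some product `f` of some of the `g k` the curves
`f(α) y² = f(z)`, `h(α) = 0`, are elliptic curves with finitely many rational points and a
Tate-Shafarevich group of finite exponent, then every such section (for `F` algebraic over `ℚ(z)`)
arises from exactly one rational point, and `x = 0` there.

The vectors of an orbit up to the time `N` are only `N` of the `e ^ (c N)` vectors of the same size, the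
group may be thin, and the integers `λ(c_t)` are not squarefree; so this is not contained in the
statement about boxes.

Proof. The classes of the sections of all `C a` are in a finite set. For a class `δ` which is not
persistent there is a Frobenius class (Chebotarev's theorem) such that no section of `C a` has the class
`δ` if a prime of this Frobenius class divides `a` exactly once (local analysis of helper925, starting
library `Pool.Agent.R925.FD`, here for integers `a` which are not squarefree). The sum of the
reciprocals of these primes diverges, so the set of the `c` such that no such prime divides `λ(c)`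
exactly once is pronull, and by the theorem of `Pool.Agent.N24.RW` (helper24 and helpers 543, 195, 300,
765, 340, 123: ergodic theorem for random walks on finite groups, transitivity of `SL_r(ℤ/q)` on
primitive vectors) the random orbit is in such a set only at times of density zero. There are only
countably many conditions, and a diagonal argument gives one set `E`.
-/

set_option autoImplicit false

namespace Pool.Agent.Results.MP_8312c9_nt.RandomOrbits

open Polynomial MeasureTheory Pool.Agent.R925.FD Pool.Agent.TH954 Pool.Agent.TH942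
open Pool.Agent.N24.RW Pool.Agent.N676.OR
open Pool.Agent.Results.MP_8312c9_nt.SectionsOfTwistedCoverings
  (Admissible NoSections exh' adm zeros_exh' eval_exh')

/-- For a product `f` of some of the `g k` and all integral zeros `α` of `h`, the curve
`f(α) y² = f(z)` is an elliptic curve with only finitely many rational points and a Tate-Shafarevich
group which is killed by a positive integer. -/
def HasEllipticFactor {r : ℕ} (g : Fin r → ℤ[X]) (h : ℤ[X]) : Prop :=
  ∃ (M₀ : ℕ) (T : Finset (Fin r)), 1 ≤ M₀ ∧
    ∀ α : ℤ, h.eval α = 0 → EllipticFactor (∏ k ∈ T, g k) α M₀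

/-- All sections for the curves `C a`, `m ≥ 2`, `m ∣ deg h`, have persistent classes, and they come from
rational points with `x = 0` if the persistent classes are those of the integral zeros of `h` and there
is an elliptic factor. -/
def Good {r : ℕ} (n : ℕ) (b : ℤ) (g : Fin r → ℤ[X]) (h : ℤ[X]) (a : ℤ) : Prop :=
  (∀ m : ℕ, 2 ≤ m → m ∣ h.natDegree → SectionsPersistent n m b a g h) ∧
  (n = 2 → OnlyZeros b g h → HasEllipticFactor g h →
    ∀ m : ℕ, 2 ≤ m → m ∣ h.natDegree → SectionsFromZeros 2 m b a g h)

lemma good_of {r n : ℕ} {b : ℤ} {g : Fin r → ℤ[X]} {h : ℤ[X]} (hA : Admissible n b g h) :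
    ∃ PP : Set (Set ℕ), PP.Finite ∧ (∀ P ∈ PP, Big P) ∧
      ∀ a : ℤ, (∀ P ∈ PP, Hit P a) → Good n b g h a := by
  classical
  obtain ⟨PP, h1, h2, h3⟩ := sec_once hA.n_pos hA.b_ne hA.g_ne hA.h_ne hA.deg hA.coprime
    hA.coprime_h
  by_cases hcase : n = 2 ∧ OnlyZeros b g h ∧ HasEllipticFactor g h
  · obtain ⟨rfl, hOZ, M₀, T, hM₀, hT⟩ := hcase
    obtain ⟨QQ, q1, q2, q3⟩ := fromZeros_once hA.b_ne hA.g_ne hA.h_ne hA.deg hA.coprime
      hA.coprime_h hOZ hM₀ T hT
    refine ⟨PP ∪ QQ, h1.union q1, ?_, fun a ha => ⟨?_, ?_⟩⟩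
    · rintro P (hP | hP)
      · exact h2 P hP
      · exact q2 P hP
    · exact h3 a fun P hP => ha P (Or.inl hP)
    · intro _ _ _
      exact q3 a fun P hP => ha P (Or.inr hP)
  · exact ⟨PP, h1, h2, fun a ha => ⟨h3 a ha, fun e1 e2 e3 => absurd ⟨e1, e2, e3⟩ hcase⟩⟩

lemma adm_ex : Admissible 2 1 exg exh :=
  ⟨by norm_num, one_ne_zero, exg_ne, exh_ne, fun k => by rw [exg_deg], exg_coprime, exgh_coprime⟩

theorem result :
    (∀ (r n : ℕ) (b : ℤ) (g : Fin r → ℤ[X]) (h : ℤ[X]), Admissible n b g h →
      ∀ (ι : Type) [Fintype ι] (lam : ι → ℤ), lam ≠ 0 →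
        ProNull {c : ι → ℤ | ¬ Good n b g h (∑ i, lam i * c i)}) ∧
    (∀ (ι : Type) [Fintype ι] [DecidableEq ι], 2 ≤ Fintype.card ι → ∀ W : Walk ι,
      ∀ᵐ w ∂(words W.m), ∃ E : Set ℕ, DensityZero E ∧
        ∀ v : ι → ℤ, v ≠ 0 → ∀ lam : ι → ℤ, lam ≠ 0 →
          (∀ (r n : ℕ) (b : ℤ) (g : Fin r → ℤ[X]) (h : ℤ[X]), Admissible n b g h →
            {t : ℕ | t ∉ E ∧ ¬ Good n b g h (∑ i, lam i * orb W v w t i)}.Finite) ∧
          {t : ℕ | t ∉ E ∧ ¬ ∀ m : ℕ, 2 ≤ m → m ∣ exh.natDegree →
            NoSections 2 m 1 (∑ i, lam i * orb W v w t i) exg exh}.Finite) ∧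
    (∀ (a : ℤ) (m : ℕ), m ≠ 0 → CurveHasPoint 2 m 1 a exg exh ℝ ∧
      ∀ (p : ℕ) [Fact p.Prime], CurveHasPoint 2 m 1 a exg exh ℚ_[p]) ∧
    (∀ M₀ : ℕ, 1 ≤ M₀ → ShaKilledBy (sw (-351) (1890 : ℚ)) M₀ →
      ∀ (b : ℤ) (g₁ : ℤ[X]) (m : ℕ), b ≠ 0 → g₁ ≠ 0 → 2 ∣ g₁.natDegree →
        IsCoprime (exf.map (Int.castRingHom ℚ)) (g₁.map (Int.castRingHom ℚ)) →
        IsCoprime ((exh' m).map (Int.castRingHom ℚ)) (g₁.map (Int.castRingHom ℚ)) → 2 ≤ m →
        Admissible 2 b ![exf, g₁] (exh' m) ∧ OnlyZeros b ![exf, g₁] (exh' m) ∧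
          HasEllipticFactor ![exf, g₁] (exh' m)) := by
  classical
  have hcp := countable_poly
  have key := orbit_principle (𝔇 := Σ r : ℕ, ℕ × ℤ × (Fin r → ℤ[X]) × ℤ[X])
    (fun D a => Admissible D.2.1 D.2.2.1 D.2.2.2.1 D.2.2.2.2 →
      Good D.2.1 D.2.2.1 D.2.2.2.1 D.2.2.2.2 a) (by
    rintro ⟨r, n, b, g, h⟩
    by_cases hA : Admissible n b g h
    · obtain ⟨PP, h1, h2, h3⟩ := good_of hA
      exact ⟨PP, h1, h2, fun a ha _ => h3 a ha⟩
    · exact ⟨∅, Set.finite_empty, fun P hP => absurd hP (Set.notMem_empty _),
        fun a _ hA' => absurd hA' hA⟩)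
  refine ⟨?_, ?_, fun a m hm => ⟨ex_real m hm a, fun p _ => ex_padic m hm a p⟩, ?_⟩
  · intro r n b g h hA ι _ lam hlam
    refine Clo.mono ?_ (key.1 ι lam hlam ⟨r, n, b, g, h⟩)
    intro c hc hgood
    exact hc (hgood hA)
  · intro ι _ _ hι W
    filter_upwards [key.2 ι hι W] with w hw
    obtain ⟨E, hE, hall⟩ := hw
    have hgen : ∀ v : ι → ℤ, v ≠ 0 → ∀ lam : ι → ℤ, lam ≠ 0 →
        ∀ (r n : ℕ) (b : ℤ) (g : Fin r → ℤ[X]) (h : ℤ[X]), Admissible n b g h →
            {t : ℕ | t ∉ E ∧ ¬ Good n b g h (∑ i, lam i * orb W v w t i)}.Finite := by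
      intro v hv lam hlam r n b g h hA
      refine (hall v hv lam hlam ⟨r, n, b, g, h⟩).subset ?_
      rintro t ⟨ht, ht'⟩
      exact ⟨ht, fun hgood => ht' (hgood hA)⟩
    refine ⟨E, hE, fun v hv lam hlam => ⟨hgen v hv lam hlam, ?_⟩⟩
    refine (hgen v hv lam hlam 2 2 1 exg exh adm_ex).subset ?_
    rintro t ⟨ht, ht'⟩
    refine ⟨ht, fun hgood => ht' ?_⟩
    intro m hm hmh F Ω B _ _ _ _ _ _ _ _ _ _ z x y hz hy hx ⟨s, hs⟩
    obtain ⟨δ, h3, -, h4⟩ := hgood.1 m hm hmh F Ω B z x y hz hy hx s hs
    exact ex_not_persistent δ (h3.1 0) h4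
  · intro M₀ hM₀ hSha b g₁ m hb hg₁ hdeg hf hh hm
    have hA := adm hb hg₁ hdeg hf hh
    have hprod : ∏ k ∈ ({0} : Finset (Fin 2)), (![exf, g₁] : Fin 2 → ℤ[X]) k = exf := by
      rw [Finset.prod_singleton]
      rfl
    refine ⟨hA, onlyZeros_two hA.h_ne hA.coprime_h 0 24 (zeros_exh' hm), M₀, {0}, hM₀,
      fun α hα => ?_⟩
    rw [hprod]
    exact exf_factor hSha α (eval_exh' hm α hα)

end Pool.Agent.Results.MP_8312c9_nt.RandomOrbits
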