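import Pool.Agent.N339.BS.All

/-!
# No birational sections for thin families of superelliptic curves, over all finitely generated fields

Let `P_{i j}` (`i, j = 0, 1, 2, …`) be generalised polynomials `P(t) = ∑ a_x t ^ x` (finitely many real
exponents and real coefficients) whose leading exponents are distinct, positive and not integers, with
positive leading coefficients; for example `P_{i j}(t) = t ^ ((i + j) ^ 2 + i + √2)`.  For a field `k` of
characteristic zero and `e_0, …, e_{m-1} ∈ k` put

`c_i(t) = ⌊P_{i 0}(t)⌋ e_0 + … + ⌊P_{i (m-1)}(t)⌋ e_{m-1}`   for the positive integers `t`.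

For instance, `m = 1` and `e_0 = 1` gives curves with integral coefficients `c_i(t) = ⌊P_{i 0}(t)⌋`, and an
integral basis of a number field `k` gives coefficients in the ring of integers.

**Theorem.** There is ONE set `E` of natural density zero, also of relative density zero in the set of the
primes, such that for ALL finitely generated fields `k` of characteristic zero, ALL
`(e_0, …, e_{m-1}) ∈ k ^ m` which are not zero, ALL `d ≥ 3` and all but finitely many `t` outside `E` the
following holds: `c_0(t) ≠ 0`, the polynomial `f = c_1(t) + c_2(t) x + … + c_{d+1}(t) x ^ d` is irreducible of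
degree `d` over `k`, and for ALL `n ≥ 1` and ALL finite extensions `L` of `k` whose degree is not divisible
by `gcd(n, d)` (by `gcd(n, d / 2)` if `4 ∣ d`) the smooth projective curve

`X : c_0(t) yⁿ = f(x)`

over `L` has no point, the absolute Galois group of its function field has no section over `G_L`, and the
fundamental groups of all its open subcurves, and of all smooth curves (or varieties) over `L` which
dominate it, have no sections.  So the birational section conjecture and the section conjecture hold for
these curves over `L`.  Moreover, if the degree of `L` is not divisible by `D = gcd(n, d / gcd(2, d))`,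
then already a very small quotient of the absolute Galois group of the function field `F` of `X` has no
section: let `M` be generated over `F` by the algebraic closure `L̄` of `L` and by the roots of order `D` of
the functions `(x - θ) / (x - θ')`, `θ` and `θ'` being roots of `f`.  The group `Gal(M/F L̄)` is abelian of
exponent dividing `D`, and `Gal(M/F) → G_L` has no section.

The exceptional set of the `t ∈ E` does not depend on `k`, `e` and `d`, and the finitely many exceptions
outside of `E` do not depend on `n` and `L`.  For `t ≤ N` there are `N` vectors `(c_0(t), …, c_{d+1}(t))` among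
the about `N ^ (sum of the exponents)` integral vectors of this size, so that theorems about almost all
vectors of a box do not say anything about them.

The fundamental group is described through valuations.  Let `U` be a smooth geometrically connected
curve over `k` with function field `F`, let `Ω` be an algebraic closure of `F`, and let `F_U` be the
maximal extension of `F` inside `Ω` which is unramified over the closed points of `U`, that is, over
their local rings, which are valuation rings of `F`.  Then `π₁(U) = Gal(F_U/F)`, and the map
`π₁(U) → G_k` is the restriction of automorphisms to the algebraic closure of `k` in `Ω`.  For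
`U = ∅` one gets `F_U = Ω` and the sections of `Gal(Ω/F) → G_k`.

Proof.  Let `R ⊆ k` be a finitely generated ring with field of fractions `k` that contains the `e_j`.  There
are a number field `K` and a homomorphism `P : R → K` such that for almost all primes `v` of `K` there is an
embedding `k → K_v` which is congruent to `P` modulo `v²` on `R` (`Pool.Agent.N92.TH.emb_fg`).  It gives a
discrete valuation ring `A` of `k` with finite residue field.  If `v(P(c_0)) = 1` and the reduction of
`f` is irreducible of degree `d` modulo `v`, then the assertions hold: let `L/k` be finite and `l` a prime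
number with `v_l([L : k]) < v_l(D)`.  There is a place `w` of `L` above `A` with ramification index `e` and
residue degree `r` such that `v_l(e) + v_l(r) ≤ v_l([L : k])`.  Put `ℓ = l ^ (v_l(e) + 1)`, a divisor of `D`.
Then `w(c_0) = e` is not divisible by `ℓ` and the degrees of the irreducible factors of `f` modulo `w` are
divisible by `gcd(2, ℓ) ℓ`, and one can apply the local theorem of
`Pool.Agent.Results.MP_8312c9_nt.FactorDegrees`.  If `D` divides `[L : k]` and `4 ∤ d`, then `n` and `d` are
even and `[L : k]` is odd; there is a place `w` with odd `e` and `r`, at which `f` has no factors of odd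
degree, and one uses the local theorem for hyperelliptic curves (`Pool.Agent.W623.SecC.local_no_section`).
For the primes `v` of degree one, unramified over `p`, the good classes modulo `p²` of the integral vectors
`(⌊P_{i j}(t)⌋)` have density at least `(1/4d) (1/p - 1/p²)`, and the sum over these primes diverges.  The
vectors are equidistributed modulo all `q ≤ N ^ κ`, over the integers and over the primes in `(N, 2 N]`
(exponential sums, helper666), and Turan's sieve gives the theorem for one field `k` (up to isomorphism), one
`e` and one `d` (helper92).  There are only countably many of these, and a diagonal argument gives one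
exceptional set.
-/

set_option autoImplicit false

open Polynomial

namespace Pool.Agent.Results.MP_8312c9_nt.ThinSequencesAllFields

universe u v w y

section definitions

variable (k : Type u) (F : Type v) (Ω : Type w) [Field k] [Field F] [Field Ω] [Algebra k F]
  [Algebra F Ω] [Algebra k Ω]

/-- The inertia group of the valuation ring `W` of `Ω`, as a subgroup of `Gal(Ω/F)`: the
automorphisms of `Ω` over `F` that map `W` onto itself and act as the identity on its residue
field. -/
noncomputable def inertia (W : ValuationSubring Ω) : Subgroup (Ω ≃ₐ[F] Ω) :=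
  (W.inertiaSubgroup F).map (W.decompositionSubgroup F).subtype

/-- `F_U`, for a set `U` of valuation rings of `F`: the elements of `Ω` fixed by the inertia groups
of all valuation rings `W` of `Ω` with `W ∩ F ∈ U`.  If `Ω` is an algebraic closure of a field `F`
of characteristic zero, this is the maximal extension of `F` in `Ω` unramified over `U`. -/
noncomputable def unramified (U : Set (ValuationSubring F)) : IntermediateField F Ω :=
  ⨅ W : {W : ValuationSubring Ω // W.comap (algebraMap F Ω) ∈ U},
    IntermediateField.fixedField (inertia F Ω W.1)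

/-- The map `τ : M → M` acts as `σ : K → K` on the elements that the fields `K` and `M` have in
common when they are regarded as subfields of `Ω` through `i` and `j`. -/
def ActsAs {K M Ω : Type*} [Field K] [Field M] [Field Ω] (i : K →+* Ω) (j : M →+* Ω) (σ : K → K)
    (τ : M → M) : Prop :=
  ∀ c z, j z = i c → j (τ z) = i (σ c)

/-- Let `k ⊆ K ⊆ Ω` and `F ⊆ M ⊆ Ω` be fields.  A splitting of `Gal(M/F) → Gal(K/k)`: a continuous
homomorphism `s` from `Gal(K/k)` to `Gal(M/F)` such that `s(σ)` acts as `σ` on the elements of
`K ∩ M`. -/
structure Splitting (K M : Type*) [Field K] [Field M] [Algebra k K] [Algebra F M] [Algebra K Ω]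
    [Algebra M Ω] where
  /-- the homomorphism `Gal(K/k) → Gal(M/F)` -/
  toHom : (K ≃ₐ[k] K) →* (M ≃ₐ[F] M)
  cont : Continuous toHom
  compat : ∀ σ : K ≃ₐ[k] K, ActsAs (algebraMap K Ω) (algebraMap M Ω) σ (toHom σ)

/-- The sections of `π₁(U) = Gal(F_U/F) → G_k`: the continuous homomorphisms `s` from
`G_k = Gal(k̄/k)` to `Gal(F_U/F)`, where `k̄` is the algebraic closure of `k` in `Ω`, such that
`s(σ)` acts as `σ` on the elements of `k̄`. -/
def GaloisSection (U : Set (ValuationSubring F)) : Type w :=
  Splitting k F Ω (algebraicClosure k Ω) (unramified F Ω U)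

end definitions

/-- The smooth projective curve with the affine equation `a yⁿ = f(x)` has no point over `k`: neither
over the affine line, nor at infinity, where the points over `k` correspond to the solutions of
`a r^g = c` with `g = gcd(n, deg f)` and `c` the leading coefficient of `f`. -/
def NoPoint {k : Type u} [Field k] (n : ℕ) (a : k) (f : k[X]) : Prop :=
  (¬ ∃ x y : k, a * y ^ n = f.eval x) ∧ ¬ ∃ r : k, a * r ^ Nat.gcd n f.natDegree = f.leadingCoeff

/-- Let `F` be any field over `k` that contains a point `(x, y)` of the curve `a yⁿ = f(x)`, for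
instance the function field of the curve, or of a curve that dominates it, and let `Ω` be an algebraic
closure of `F`.  Then for every set `U` of valuation rings of `F` over `k` there is no section of
`π₁(U) → G_k`.  For `U = ∅` these are the sections of `Gal(Ω/F) → G_k`.  If `F` is the function field of
the curve, the smooth projective curve and all its open subcurves give such sets `U`. -/
def NoSection {k : Type u} [Field k] (n : ℕ) (a : k) (f : k[X]) : Prop :=
  ∀ (F : Type v) (Ω : Type w) [Field F] [Field Ω] [Algebra k F] [Algebra F Ω] [Algebra k Ω]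
    [IsScalarTower k F Ω] [IsAlgClosure F Ω] (x y : F) (U : Set (ValuationSubring F)),
    algebraMap k F a * y ^ n = aeval x f → (∀ O ∈ U, ∀ c : k, algebraMap k F c ∈ O) →
      IsEmpty (GaloisSection k F Ω U)

/-- The extension `M` of `F` in `Ω` contains the algebraic closure of `k` and, for all roots `θ`, `θ'`
of the polynomial `f`, a root of order `D` of `(x - θ)/(x - θ')`. -/
def ContainsRoots {k : Type u} {F : Type v} {Ω : Type w} [Field k] [Field F] [Field Ω]
    [Algebra k F] [Algebra F Ω] [Algebra k Ω] (D : ℕ) (f : k[X]) (x : F)
    (M : IntermediateField F Ω) : Prop :=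
  (∀ c : algebraicClosure k Ω, (c : Ω) ∈ M) ∧ ∀ θ θ' : Ω, aeval θ f = 0 → aeval θ' f = 0 →
    ∃ z ∈ M, z ^ D = (algebraMap F Ω x - θ) / (algebraMap F Ω x - θ')

/-- Let `F` be any field over `k` that contains a point `(x, y)` of the curve `a yⁿ = f(x)` and let
`Ω` be an algebraic closure of `F`.  If the extension `M` of `F` in `Ω` contains the algebraic closure
of `k` and the roots of order `D` of the functions `(x - θ)/(x - θ')`, then there is no section of
`Gal(M/F) → G_k`. -/
def NoKummerSection {k : Type u} [Field k] (D n : ℕ) (a : k) (f : k[X]) : Prop :=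
  ∀ (F : Type v) (Ω : Type w) [Field F] [Field Ω] [Algebra k F] [Algebra F Ω] [Algebra k Ω]
    [IsScalarTower k F Ω] [IsAlgClosure F Ω] (x y : F) (M : IntermediateField F Ω),
    algebraMap k F a * y ^ n = aeval x f → ContainsRoots D f x M →
      IsEmpty (Splitting k F Ω (algebraicClosure k Ω) M)

/-- `d`, or `d / 2` if `4` divides `d`. -/
def core (d : ℕ) : ℕ := if 4 ∣ d then d / 2 else d

/-- The polynomial `c_1 + c_2 x + … + c_{d+1} x ^ d`. -/
noncomputable def poly {k : Type} [Field k] {d : ℕ} (c : Fin (d + 2) → k) : k[X] :=
  ∑ i : Fin (d + 1), C (c i.succ) * X ^ (i : ℕ)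

/-- All assertions about the curves `c_0 yⁿ = f(x)`, `f = c_1 + c_2 x + … + c_{d+1} x ^ d`: `c_0 ≠ 0`, `f` is
irreducible of degree `d` over `k`, and for all `n ≥ 1` and all finite extensions `L` of `k`:
if `gcd(n, core d)` does not divide `[L : k]`, then the curve has no point over `L` and there are no
sections, also for the open subcurves and the curves that dominate it; if `D = gcd(n, d / gcd(2, d))` does
not divide `[L : k]`, then also the groups `Gal(M/F)` for the `M` which contain `L̄` and the roots of order
`D` have no sections. -/
def Holds {k : Type} [Field k] (d : ℕ) (c : Fin (d + 2) → k) : Prop :=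
  c 0 ≠ 0 ∧ (poly c).natDegree = d ∧ Irreducible (poly c) ∧
    ∀ n : ℕ, 0 < n → ∀ (L : Type y) [Field L] [Algebra k L] [FiniteDimensional k L],
      (¬ Nat.gcd n (core d) ∣ Module.finrank k L →
        NoPoint n (algebraMap k L (c 0)) ((poly c).map (algebraMap k L)) ∧
        NoSection.{y, v, w} n (algebraMap k L (c 0)) ((poly c).map (algebraMap k L))) ∧
      (¬ Nat.gcd n (d / Nat.gcd 2 d) ∣ Module.finrank k L →
        NoKummerSection.{y, v, w} (Nat.gcd n (d / Nat.gcd 2 d)) n (algebraMap k L (c 0))
          ((poly c).map (algebraMap k L)))

/-- The field `k` is finitely generated (as a field). -/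
def FinitelyGenerated (k : Type) [Field k] : Prop :=
  ∃ s : Finset k, Subfield.closure (s : Set k) = ⊤

/-- `c` is the largest exponent of the generalised polynomial `∑ a_x t ^ x`; it is positive and not an
integer and has a positive coefficient. -/
def Admissible (F : Finset ℝ) (a : ℝ → ℝ) (c : ℝ) : Prop :=
  c ∈ F ∧ (∀ x ∈ F, x ≤ c) ∧ 0 < c ∧ (∀ m : ℕ, c ≠ m) ∧ 0 < a c

/-- The vector `(c_0(t), …, c_{d+1}(t))`, `c_i(t) = ∑_j ⌊P_{i j}(t)⌋ e_j`, where `P_{i j}` is the generalised
polynomial with the exponents `F i j` and the coefficients `a i j`. -/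
noncomputable def coeffs {k : Type} [Field k] {m : ℕ} (e : Fin m → k) (F : ℕ → ℕ → Finset ℝ)
    (a : ℕ → ℕ → ℝ → ℝ) (d t : ℕ) : Fin (d + 2) → k :=
  fun i => ∑ j : Fin m, ((⌊∑ x ∈ F i j, a i j x * (t : ℝ) ^ x⌋ : ℤ) : k) * e j

/-- `E` has density zero relative to the sets `S N`. -/
def NullIn (S : ℕ → Finset ℕ) (E : Set ℕ) : Prop :=
  ∀ ε : ℝ, 0 < ε → ∃ N₀ : ℕ, ∀ N : ℕ, N₀ ≤ N →
    ({t : ℕ | t ∈ S N ∧ t ∈ E}.ncard : ℝ) ≤ ε * (S N).card

section proof

open Pool.Agent.TH377.Sup Pool.Agent.N339.BS

/-- the assertions of the helper files -/
theorem holds_of_good {k : Type} [Field k] {d : ℕ} {c : Fin (d + 2) → k}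
    (h : GoodX.{v, w, y} k d c) : Holds.{v, w, y} d c := by
  obtain ⟨h1, h2, h3, h4⟩ := h
  refine ⟨h1, pol_natDegree _ h2, h3, fun n hn L _ _ _ => ?_⟩
  obtain ⟨g1, g2⟩ := h4 n hn L
  refine ⟨fun hL => ?_, fun hL => ?_⟩
  · obtain ⟨⟨k1, k2⟩, k3⟩ := g1 hL
    refine ⟨⟨?_, ?_⟩, ?_⟩
    · rintro ⟨x, y, hxy⟩
      exact k1 x y hxy
    · rintro ⟨r, hr⟩
      exact k2 r hr
    · intro F Ω _ _ _ _ _ _ _ x y U hxy hU
      have hcl : IsAlgClosed Ω := IsAlgClosure.isAlgClosed F
      have halg : Algebra.IsAlgebraic F Ω := IsAlgClosure.isAlgebraic
      exact ⟨fun s => (k3 F Ω U hU x y hxy).false ⟨s.toHom, s.cont, s.compat⟩⟩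
  · intro F Ω _ _ _ _ _ _ _ x y M hxy hM
    have hcl : IsAlgClosed Ω := IsAlgClosure.isAlgClosed F
    have halg : Algebra.IsAlgebraic F Ω := IsAlgClosure.isAlgebraic
    exact ⟨fun s => (g2 hL F Ω M hM.1 x y hxy hM.2).false
      ⟨s.toHom, s.cont, fun σ c z hz => s.compat σ c z hz⟩⟩

end proof

/-- Let `P_{i j}` (`i, j ∈ ℕ`) be generalised polynomials whose leading exponents are distinct, positive and
not integers and whose leading coefficients are positive.  There is one set `E` of density zero, also in
the primes, such that for all finitely generated fields `k` of characteristic zero, all `m` and all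
`e ∈ k ^ m`, `e ≠ 0`, all `d ≥ 3` and all but finitely many `t` not in `E` the vector
`c_i(t) = ∑_j ⌊P_{i j}(t)⌋ e_j` (`i ≤ d + 1`, `j < m`) has the following properties: `c_0(t) ≠ 0`, the
polynomial `f = c_1(t) + … + c_{d+1}(t) x ^ d` is irreducible of degree `d` over `k`, and for all `n ≥ 1` and all
finite extensions `L` of `k` of a degree not divisible by `gcd(n, d)`, or `gcd(n, d / 2)` if `4 ∣ d`, the
curve `c_0(t) yⁿ = f(x)` over `L` has no points and no birational sections and the fundamental groups of its
open subcurves have no sections; if `D = gcd(n, d / gcd(2, d))` does not divide the degree, then there is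
also no section of `Gal(M/F) → G_L` if `M` contains `L̄` and the roots of order `D` of the functions
`(x - θ)/(x - θ')`, where `θ`, `θ'` are roots of `f`. -/
theorem result (F : ℕ → ℕ → Finset ℝ) (a : ℕ → ℕ → ℝ → ℝ) (c : ℕ → ℕ → ℝ)
    (h : ∀ i j, Admissible (F i j) (a i j) (c i j))
    (hc : Function.Injective fun z : ℕ × ℕ => c z.1 z.2) :
    ∃ E : Set ℕ, NullIn (fun N => Finset.Ioc N (2 * N)) E ∧
      NullIn (fun N => (Finset.Ioc N (2 * N)).filter Nat.Prime) E ∧
      ∀ (k : Type) [Field k] [CharZero k], FinitelyGenerated k →
        ∀ (m : ℕ) (e : Fin m → k), e ≠ 0 → ∀ d : ℕ, 3 ≤ d →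
          {t : ℕ | t ∉ E ∧ ¬ Holds.{v, w, y} d (coeffs e F a d t)}.Finite := by
  obtain ⟨E, h1, h2, h3⟩ := Pool.Agent.N339.BS.main_all.{v, w, y} F a c h hc
  refine ⟨E, h1, h2, fun k _ _ hk m e he d hd => (h3 k hk m e he d hd).subset ?_⟩
  rintro t ⟨ht, ht'⟩
  exact ⟨ht, fun hg => ht' (holds_of_good.{v, w, y} hg)⟩

end Pool.Agent.Results.MP_8312c9_nt.ThinSequencesAllFields
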