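import Pool.Agent.N92.TC.Sec

/-!
# The birational section conjecture for thin sequences of twists of cyclic coverings

Let `D : b y ^ n = ∏ k, g k (z)` be a curve over `ℚ`, where the `g k` are polynomials with integral
coefficients, of degrees divisible by `n`, pairwise coprime, and let `h` be a polynomial with integral
coefficients, coprime to the `g k`. For an integer `a` and `m ≥ 2`, `m ∣ deg h`, consider

  `C a : b y ^ n = ∏ k, g k (z)`, `a x ^ m = h (z)`.

It is a cyclic covering of degree `m` of the fixed curve `D`, and for different `a` these coverings are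
twists of each other. We consider sections `s` of `Gal(Ω/F) → G_ℚ`, where `F` is the function field
of `C a`, of a covering of it or of a variety with a dominant map to it, which are geometric over the
completions of `ℚ` at the finite places; by the theorem of Koenigsmann on sections over local fields
all sections have this property.

By Kummer theory, `g k (z) = δ k * γ k ^ n` with rational numbers `δ k`, `∏ δ k = b t ^ n`, and
elements `γ k` of `Ω` which are fixed by the section: the class `δ` of the section. Call `δ`
persistent if every automorphism `σ` of the field of algebraic numbers fixes a zero `β` of `h` and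
solutions `y k` of `g k (β) = δ k * y k ^ n` (all `k`).

The starting result `SectionsOfTwistedCoverings` treats the squarefree numbers `a`, `|a| ≤ X`: for each
covering there are few exceptions. Here we consider sequences `a = a(t)`, `t = 1, 2, 3, …`, which may
grow as fast as we please, so that only very few integers `a` occur, and all coverings at once. The only
condition is that the sequence is uniformly distributed modulo all integers `q`; more generally `t` can
be restricted to finite sets `S N ⊆ (N, 2N]`, for instance to the primes in `(N, 2N]`.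

**Theorem.** Let the sequence `a(t)` be uniformly distributed modulo all integers along `S N`, and along
`S' N`. There is ONE set `E` of natural numbers, of density zero relative to `S N` and to `S' N`, such
that for ALL `D`, `h` the following is true.

(1) For all but finitely many `t ∉ E` and all `m ≥ 2`, `m ∣ deg h`, all the sections over `C (a t)`
have a persistent class. If there are no persistent classes, there are no sections.

(2) For `D : y² = (z² + 51) (z² - 1)` and `h = (z² + 1) (z² - 17) (z² + 17)` there are no persistent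
classes. So for all but finitely many `t ∉ E` there are no sections over `C (a t)`, `m ∈ {2, 3, 6}`,
although all the curves `C a` have points over `ℝ` and all `ℚ_p`.

(3) Let `n = 2`, and suppose that every persistent class is the class of a rational zero `α` of `h`, that
is, `δ k * g k (α)` is a square for all `k`, and that for some set `T` of indices the product
`f = ∏ g k`, `k ∈ T`, is a quartic polynomial with a rational zero for which `f(α) y² = f(z)` is an
elliptic curve with only finitely many rational points, whose Tate-Shafarevich group is killed by a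
positive integer, for all integral zeros `α` of `h`. Then for all but finitely many `t ∉ E` every section
over `C (a t)` arises from exactly one rational point, and `x = 0` there: the birational section
conjecture holds for the curves `C (a t)` and their coverings. (An example is
`f = (z - 60) (z - 30) (z - 20) (z - 15)`, `g = (f, g₁)` with an arbitrary `g₁` of even degree, and
`h = z (z - 24) ^ (m - 1)`, see the starting result; these are the twists
`6 b y² = (u² - 25) (9 u² - 25) G₁(u)`, `u = a(t) v ^ m`, of a hyperelliptic curve by automorphisms of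
order `m`.)

Uniformly distributed modulo all integers, along all integers and along the primes, are for example the
integral parts of generalised polynomials `P(t) = ∑ α_i t ^ i`, finite sums of real powers with real
coefficients, with positive non-integral leading exponent and positive leading coefficient
(second part of the theorem), for instance `⌊t ^ √2⌋` or `⌊π t ^ 100.5⌋`.

Proof. If a prime `p` with good reduction divides `a` exactly once, then the points of the covering of
`C a` of class `δ` over `ℚ_p` reduce to the zeros of `h`, and if `δ` is not persistent, then by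
Chebotarev's theorem there are no such points modulo the primes `p` of a set with divergent sum of the
`1 / p`. By Turán's sieve for well distributed sequences almost all `a(t)` are divisible exactly once by a
prime of this set. Outside a finite set of primes, which depends only on `D` and `h`, the class of a section
is unramified, so that for given `D` and `h` there are only finitely many classes `δ`, and there are only
countably many `D` and `h`: a diagonal argument gives one set `E`. In (3) we use that `a(t)` is
divisible exactly once by a large prime; so `a(t) x ^ m` does not take any of the finitely many values of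
`h` at the rational points of the elliptic curves, except zero.
-/

set_option autoImplicit false

namespace Pool.Agent.Results.MP_8312c9_nt.ThinTwistedCoverings

open Polynomial Pool.Agent.R925.FD Pool.Agent.TH954 Pool.Agent.TH942

/-- The conditions on the polynomials: nonzero, the `g k` of degrees divisible by `n`, pairwise
coprime over `ℚ` and coprime to `h`. -/
structure Admissible {K : Type} (n : ℕ) (b : ℤ) (g : K → ℤ[X]) (h : ℤ[X]) : Prop where
  n_pos : 0 < n
  b_ne : b ≠ 0
  g_ne : ∀ k, g k ≠ 0
  h_ne : h ≠ 0
  deg : ∀ k, n ∣ (g k).natDegree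
  coprime : ∀ k l, k ≠ l →
    IsCoprime ((g k).map (Int.castRingHom ℚ)) ((g l).map (Int.castRingHom ℚ))
  coprime_h : ∀ k, IsCoprime (h.map (Int.castRingHom ℚ)) ((g k).map (Int.castRingHom ℚ))

/-- There are no sections of `Gal(Ω/F) → G_ℚ` which are geometric over the completions of `ℚ` at the
finite places, for all extensions `F` of the function field of `C a`. -/
def NoSections {K : Type} [Fintype K] (n m : ℕ) (b a : ℤ) (g : K → ℤ[X]) (h : ℤ[X]) : Prop :=
  ∀ (F Ω B : Type) [Field F] [Field Ω] [Field B] [Algebra ℚ F] [Algebra F Ω] [Algebra ℚ Ω]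
    [Algebra ℚ B] [IsScalarTower ℚ F Ω] [IsAlgClosure F Ω] [IsAlgClosure ℚ B] (z x y : F),
    Transcendental ℚ z → (b : F) * y ^ n = ∏ k, aeval z (g k) → (a : F) * x ^ m = aeval z h →
    ¬ ∃ s : GalSection ℚ F Ω B, LocallyGeometric s

/-- `E` has density zero relative to the sets `S N`. -/
def NullIn (S : ℕ → Finset ℕ) (E : Set ℕ) : Prop :=
  ∀ ε : ℝ, 0 < ε → ∃ N₀ : ℕ, ∀ N : ℕ, N₀ ≤ N →
    ({t : ℕ | t ∈ S N ∧ t ∈ E}.ncard : ℝ) ≤ ε * (S N).card

/-- The sequence `a` is uniformly distributed modulo all integers `q ≥ 1` along the sets `S N`. -/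
def Equidistributed (S : ℕ → Finset ℕ) (a : ℕ → ℤ) : Prop :=
  ∀ q : ℕ, 1 ≤ q → ∀ ρ : ℤ, Filter.Tendsto
    (fun N => ({t : ℕ | t ∈ S N ∧ (q : ℤ) ∣ a t - ρ}.ncard : ℝ) / (S N).card)
    Filter.atTop (nhds (1 / (q : ℝ)))

/-- `∑ i ∈ I, α i * t ^ i` is a generalised polynomial with leading exponent `θ`, which is positive
and not an integer, and with positive leading coefficient. -/
def Generalised (I : Finset ℝ) (α : ℝ → ℝ) (θ : ℝ) : Prop :=
  θ ∈ I ∧ (∀ i ∈ I, i ≤ θ) ∧ 0 < θ ∧ (∀ m : ℕ, θ ≠ m) ∧ 0 < α θ

/-- The integral part of the value at `t` of the generalised polynomial `∑ i ∈ I, α i * t ^ i`. -/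
noncomputable def value (I : Finset ℝ) (α : ℝ → ℝ) (t : ℕ) : ℤ := ⌊∑ i ∈ I, α i * (t : ℝ) ^ i⌋

theorem result :
    (∀ (a : ℕ → ℤ) (S S' : ℕ → Finset ℕ), (∀ N, S N ⊆ Finset.Ioc N (2 * N)) →
      (∀ N, S' N ⊆ Finset.Ioc N (2 * N)) → Equidistributed S a → Equidistributed S' a →
      ∃ E : Set ℕ, NullIn S E ∧ NullIn S' E ∧
        (∀ (K : Type) [Fintype K] (n : ℕ) (b : ℤ) (g : K → ℤ[X]) (h : ℤ[X]), Admissible n b g h →
          {t : ℕ | t ∉ E ∧ ∃ m, 2 ≤ m ∧ m ∣ h.natDegree ∧
            ¬ SectionsPersistent n m b (a t) g h}.Finite ∧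
          ((∀ δ, IsClass n b δ → ¬ Persistent n g h δ) →
            {t : ℕ | t ∉ E ∧ ∃ m, 2 ≤ m ∧ m ∣ h.natDegree ∧
              ¬ NoSections n m b (a t) g h}.Finite)) ∧
        ((∀ (a : ℤ) (m : ℕ), m ≠ 0 → CurveHasPoint 2 m 1 a exg exh ℝ ∧
            ∀ (p : ℕ) [Fact p.Prime], CurveHasPoint 2 m 1 a exg exh ℚ_[p]) ∧
          {t : ℕ | t ∉ E ∧ ∃ m, 2 ≤ m ∧ m ∣ exh.natDegree ∧
            ¬ NoSections 2 m 1 (a t) exg exh}.Finite) ∧
        (∀ (K : Type) [Fintype K] (b : ℤ) (g : K → ℤ[X]) (h : ℤ[X]), Admissible 2 b g h →
          OnlyZeros b g h → ∀ (M₀ : ℕ) (T : Finset K), 1 ≤ M₀ →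
          (∀ α : ℤ, h.eval α = 0 → EllipticFactor (∏ k ∈ T, g k) α M₀) →
          {t : ℕ | t ∉ E ∧ ∃ m, 2 ≤ m ∧ m ∣ h.natDegree ∧
            ¬ SectionsFromZeros 2 m b (a t) g h}.Finite)) ∧
    (∀ (I : Finset ℝ) (α : ℝ → ℝ) (θ : ℝ), Generalised I α θ →
      Equidistributed (fun N => Finset.Ioc N (2 * N)) (value I α) ∧
      Equidistributed (fun N => (Finset.Ioc N (2 * N)).filter Nat.Prime) (value I α)) := by
  classical
  refine ⟨?_, fun I α θ h => Pool.Agent.N92.TC.eqd_fl h⟩
  intro a S S' hS hS' hu hu'
  obtain ⟨E, e1, e2, e3⟩ := Pool.Agent.N92.TC.one hS hS' hu hu'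
  have hrich : Pool.Agent.N92.TC.Rich E a := e3
  have hno : ∀ (K : Type) [Fintype K] (n : ℕ) (b : ℤ) (g : K → ℤ[X]) (h : ℤ[X]),
      Admissible n b g h → (∀ δ, IsClass n b δ → ¬ Persistent n g h δ) →
      {t : ℕ | t ∉ E ∧ ∃ m, 2 ≤ m ∧ m ∣ h.natDegree ∧ ¬ NoSections n m b (a t) g h}.Finite := by
    intro K _ n b g h hA hnp
    refine (Pool.Agent.N92.TC.sec_main hrich hA.n_pos hA.b_ne hA.g_ne hA.h_ne hA.deg hA.coprime
      hA.coprime_h).subset ?_
    rintro t ⟨htE, m, hm, hmh, hns⟩
    refine ⟨htE, m, hm, hmh, fun hP => hns ?_⟩
    intro F Ω B _ _ _ _ _ _ _ _ _ _ z x y hz hy hx ⟨s, hs⟩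
    obtain ⟨δ, h3, -, h4⟩ := hP F Ω B z x y hz hy hx s hs
    exact hnp δ h3 h4
  refine ⟨E, e1, e2, fun K _ n b g h hA => ⟨?_, hno K n b g h hA⟩, ⟨fun a m hm =>
    ⟨ex_real m hm a, fun p _ => ex_padic m hm a p⟩, ?_⟩, ?_⟩
  · exact Pool.Agent.N92.TC.sec_main hrich hA.n_pos hA.b_ne hA.g_ne hA.h_ne hA.deg hA.coprime
      hA.coprime_h
  · exact hno _ 2 1 exg exh ⟨by norm_num, one_ne_zero, exg_ne, exh_ne,
      fun k => by rw [exg_deg k], exg_coprime, exgh_coprime⟩
      (fun δ hδ => ex_not_persistent δ (hδ.1 0))
  · intro K _ b g h hA hOZ M₀ T hM₀ hT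
    exact Pool.Agent.N92.TC.fromZeros hrich hA.b_ne hA.g_ne hA.h_ne hA.deg hA.coprime hA.coprime_h
      hOZ hM₀ T hT

end Pool.Agent.Results.MP_8312c9_nt.ThinTwistedCoverings
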